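import Mathlib.Probability.BorelCantelli
import Mathlib.Probability.ProductMeasure
import Mathlib.Topology.Baire.Lemmas
import Mathlib.Topology.Baire.LocallyCompactRegular

/-!
Families of finite sets of bounded size tending to infinity: almost every and comeager many sets of
natural numbers contain one of them.
-/

set_option autoImplicit false

namespace Pool.Agent.Q302.TD

open Filter Topology MeasureTheory

/-- The finite sets `F n` leave every bounded set. -/
def Esc (F : ℕ → Finset ℕ) : Prop := ∀ M, ∀ᶠ n in atTop, ∀ c ∈ F n, M ≤ c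

theorem Esc.comp {F : ℕ → Finset ℕ} (h : Esc F) {φ : ℕ → ℕ} (hφ : Tendsto φ atTop atTop) :
    Esc (F ∘ φ) := fun M => hφ.eventually (h M)

/-- Sequences of finite sets of bounded size have subsequences converging to a finite set. -/
theorem exists_limit (w : ℕ) : ∀ (A : ℕ → Finset ℕ) (b : ℕ), (∀ n, (A n).card ≤ w) →
    (∀ n, ∀ c ∈ A n, b < c) → ∃ (D : Finset ℕ) (φ : ℕ → ℕ), StrictMono φ ∧ D.card ≤ w ∧
      (∀ c ∈ D, b < c) ∧ Esc (fun n => A (φ n) \ D) := by
  induction w with
  | zero =>
    intro A b hA hb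
    refine ⟨∅, id, strictMono_id, by simp, by simp, fun M => Eventually.of_forall fun n c hc => ?_⟩
    have h1 : A n = ∅ := Finset.card_eq_zero.1 (Nat.le_zero.1 (hA n))
    simp [h1] at hc
  | succ w ih =>
    intro A b hA hb
    by_cases h : ∃ c₀, ∃ᶠ n in atTop, c₀ ∈ A n
    · obtain ⟨c₀, hc₀⟩ := h
      obtain ⟨ψ, hψ, h1⟩ := extraction_of_frequently_atTop hc₀
      obtain ⟨D, φ, hφ, h2, h3, h4⟩ := ih (fun n => (A (ψ n)).erase c₀) b
        (fun n => by
          rw [Finset.card_erase_of_mem (h1 n)]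
          have := hA (ψ n)
          omega)
        (fun n c hc => hb _ _ (Finset.mem_of_mem_erase hc))
      refine ⟨insert c₀ D, ψ ∘ φ, hψ.comp hφ, (Finset.card_insert_le _ _).trans (by omega),
        fun c hc => ?_, fun M => ?_⟩
      · rcases Finset.mem_insert.1 hc with rfl | hc
        · exact hb _ _ (h1 0)
        · exact h3 c hc
      · filter_upwards [h4 M] with n hn c hc
        refine hn c ?_
        simp only [Function.comp, Finset.mem_sdiff, Finset.mem_insert, Finset.mem_erase] at hc ⊢
        tauto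
    · push Not at h
      refine ⟨∅, id, strictMono_id, by simp, by simp, fun M => ?_⟩
      have h1 : ∀ᶠ n in atTop, ∀ c ∈ Finset.range M, c ∉ A n := by
        rw [Finset.eventually_all]
        intro c _
        exact h c
      filter_upwards [h1] with n hn c hc
      by_contra hc'
      simp only [id, Finset.sdiff_empty] at hc
      exact hn c (Finset.mem_range.2 (by omega)) hc

/-- A subsequence of pairwise disjoint sets. -/
theorem Esc.exists_disjoint {F : ℕ → Finset ℕ} (h : Esc F) : ∃ φ : ℕ → ℕ, StrictMono φ ∧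
    ∀ i j, i ≠ j → Disjoint (F (φ i)) (F (φ j)) := by
  -- choose each set beyond the previous ones
  have key : ∀ n : ℕ, ∃ m > n, ∀ m' ≥ m, ∀ n' ≤ n, Disjoint (F n') (F m') := by
    intro n
    let B := (Finset.range (n + 1)).sup fun n' => (F n').sup id
    obtain ⟨m, hm⟩ := eventually_atTop.1 (h (B + 1))
    refine ⟨max m (n + 1), by omega, fun m' hm' n' hn' => ?_⟩
    rw [Finset.disjoint_left]
    intro c hc hc'
    have h1 : c ≤ (F n').sup id := Finset.le_sup (f := id) hc
    have h2 : (F n').sup id ≤ B := Finset.le_sup (f := fun n' => (F n').sup id)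
      (Finset.mem_range.2 (by omega))
    have h3 := hm m' (by omega) c hc'
    omega
  choose g hg1 hg2 using key
  let φ : ℕ → ℕ := fun n => Nat.rec 0 (fun _ p => g p) n
  have hφ : ∀ n, φ (n + 1) = g (φ n) := fun n => rfl
  have hm : StrictMono φ := strictMono_nat_of_lt_succ fun n => by
    rw [hφ]
    exact hg1 _
  have hd : ∀ i j, i < j → Disjoint (F (φ i)) (F (φ j)) := by
    intro i j hij
    refine hg2 (φ i) (φ j) ?_ (φ i) le_rfl
    rw [← hφ]
    exact hm.monotone hij
  refine ⟨φ, hm, fun i j hij => ?_⟩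
  rcases lt_or_gt_of_ne hij with h1 | h1
  · exact hd i j h1
  · exact (hd j i h1).symm

/-- the set of all sets of natural numbers containing `s` -/
def Sup (s : Finset ℕ) : Set (ℕ → Bool) := {r | ∀ c ∈ s, r c = true}

theorem sup_eq (s : Finset ℕ) : Sup s = Set.pi s fun _ => {true} := by
  ext r
  simp [Sup, Set.mem_pi]

theorem measurableSet_sup (s : Finset ℕ) : MeasurableSet (Sup s) := by
  rw [sup_eq]
  exact MeasurableSet.pi (Finset.countable_toSet s) fun _ _ => measurableSet_singleton _

theorem isOpen_sup (s : Finset ℕ) : IsOpen (Sup s) := by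
  rw [sup_eq]
  exact isOpen_set_pi (Finset.finite_toSet s) fun _ _ => isOpen_discrete _

/-- Almost every set contains one of the sets `F n`. -/
theorem ae_of_esc {F : ℕ → Finset ℕ} (h : Esc F) {w : ℕ} (hw : ∀ n, (F n).card ≤ w)
    (ν : ℕ → Measure Bool) [∀ n, IsProbabilityMeasure (ν n)] {ε : ENNReal} (hε : 0 < ε)
    (hν : ∀ n, ε ≤ ν n {true}) : ∀ᵐ r ∂(Measure.infinitePi ν), ∃ n, r ∈ Sup (F n) := by
  classical
  obtain ⟨φ, hφ, hd⟩ := h.exists_disjoint
  have hval : ∀ s : Finset ℕ, Measure.infinitePi ν (Sup s) = ∏ c ∈ s, ν c {true} := by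
    intro s
    rw [sup_eq, Measure.infinitePi_pi]
    intro i _
    exact measurableSet_singleton _
  have hε1 : ε ≤ 1 := (hν 0).trans prob_le_one
  have hind : ProbabilityTheory.iIndepSet (fun n => Sup (F (φ n))) (Measure.infinitePi ν) := by
    rw [ProbabilityTheory.iIndepSet_iff_meas_biInter fun n => measurableSet_sup _]
    intro s
    have h1 : ⋂ i ∈ s, Sup (F (φ i)) = Sup (s.biUnion fun i => F (φ i)) := by
      ext r
      simp only [Set.mem_iInter, Sup, Set.mem_ofPred_eq, Finset.mem_biUnion]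
      constructor
      · rintro h ⟨⟩ ⟨i, hi, hc⟩
        · exact h i hi _ hc
        · exact h i hi _ hc
      · intro h i hi c hc
        exact h c ⟨i, hi, hc⟩
    rw [h1, hval, Finset.prod_biUnion (fun i _ j _ hij => hd i j hij)]
    exact Finset.prod_congr rfl fun i _ => (hval _).symm
  have hsum : ∑' n, Measure.infinitePi ν (Sup (F (φ n))) = ⊤ := by
    have h1 : ∀ n, ε ^ w ≤ Measure.infinitePi ν (Sup (F (φ n))) := by
      intro n
      rw [hval]
      calc ε ^ w ≤ ε ^ (F (φ n)).card := pow_le_pow_right_of_le_one' hε1 (hw _)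
        _ = ∏ c ∈ F (φ n), ε := by rw [Finset.prod_const]
        _ ≤ _ := Finset.prod_le_prod' fun c _ => hν c
    have h2 : ∑' _ : ℕ, ε ^ w = ⊤ := ENNReal.tsum_const_eq_top_of_ne_zero (by
      exact pow_ne_zero _ hε.ne')
    rw [eq_top_iff, ← h2]
    exact ENNReal.tsum_le_tsum h1
  have hlim := ProbabilityTheory.measure_limsup_eq_one (fun n => measurableSet_sup (F (φ n)))
    hind hsum
  have hms : MeasurableSet (limsup (fun n => Sup (F (φ n))) atTop) :=
    MeasurableSet.measurableSet_limsup fun n => measurableSet_sup _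
  have h3 : ∀ᵐ r ∂(Measure.infinitePi ν), r ∈ limsup (fun n => Sup (F (φ n))) atTop := by
    rw [← prob_compl_eq_zero_iff hms] at hlim
    exact hlim
  filter_upwards [h3] with r hr
  rw [Filter.limsup_eq_iInf_iSup_of_nat] at hr
  simp only [Set.iInf_eq_iInter, Set.iSup_eq_iUnion, Set.mem_iInter, Set.mem_iUnion] at hr
  obtain ⟨n, -, hn⟩ := hr 0
  exact ⟨φ n, hn⟩

/-- Comeager many sets contain one of the sets `F n`. -/
theorem residual_of_esc {F : ℕ → Finset ℕ} (h : Esc F) :
    ∀ᶠ r in residual (ℕ → Bool), ∃ n, r ∈ Sup (F n) := by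
  have h1 : {r : ℕ → Bool | ∃ n, r ∈ Sup (F n)} = ⋃ n, Sup (F n) := by
    ext r
    simp
  change {r : ℕ → Bool | ∃ n, r ∈ Sup (F n)} ∈ residual _
  rw [h1]
  refine residual_of_dense_open (isOpen_iUnion fun n => isOpen_sup _) ?_
  intro x
  -- modify `x` far away
  have h2 : ∀ M : ℕ, ∃ y ∈ ⋃ n, Sup (F n), ∀ i < M, y i = x i := by
    intro M
    obtain ⟨n, hn⟩ := (h M).exists
    refine ⟨fun i => if i < M then x i else true, Set.mem_iUnion.2 ⟨n, fun c hc => ?_⟩,
      fun i hi => by simp [hi]⟩
    have := hn c hc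
    simp only
    rw [if_neg (by omega)]
  choose y hy hy' using h2
  refine mem_closure_of_tendsto (f := y) (b := atTop) ?_ (Eventually.of_forall hy)
  rw [tendsto_pi_nhds]
  intro i
  refine tendsto_const_nhds.congr' ?_
  filter_upwards [eventually_gt_atTop i] with n hn
  exact (hy' n i hn).symm

end Pool.Agent.Q302.TD
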