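import Mathlib.Analysis.Normed.Lp.lpSpace
import Mathlib.Analysis.Normed.Operator.Compact.Basic
import Mathlib.Analysis.Normed.Module.FiniteDimension
import Mathlib.Analysis.RCLike.Lemmas

/-!
Multiplication operators on spaces of `p`-summable sequences.
-/

set_option autoImplicit false

namespace Pool.Agent.Q302.TD.OP

open Filter Topology

/-- The real sequence `a` is bounded. -/
def Bd (a : ℕ → ℝ) : Prop := ∃ C : ℝ, ∀ n, |a n| ≤ C

variable {𝕜 : Type*} [RCLike 𝕜] {E : ℕ → Type*} [∀ n, NormedAddCommGroup (E n)]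
  [∀ n, NormedSpace 𝕜 (E n)] {p : ENNReal}

theorem memlp {a : ℕ → ℝ} {C : ℝ} (h : ∀ n, |a n| ≤ C) (f : lp E p) :
    Memℓp (fun n => (a n : 𝕜) • f n) p := by
  refine ((lp.memℓp ((C : 𝕜) • f))).mono' fun n => ?_
  rw [norm_smul, lp.coeFn_smul, Pi.smul_apply, norm_smul, RCLike.norm_ofReal, RCLike.norm_ofReal]
  exact mul_le_mul_of_nonneg_right ((h n).trans (le_abs_self C)) (norm_nonneg _)

variable (𝕜 E p) in
/-- Multiplication by a bounded sequence. -/
noncomputable def mulLin {a : ℕ → ℝ} (h : Bd a) : lp E p →ₗ[𝕜] lp E p where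
  toFun f := ⟨fun n => (a n : 𝕜) • f n, memlp h.choose_spec f⟩
  map_add' f g := by
    ext n
    simp
  map_smul' c f := by
    ext n
    simp only [lp.coeFn_smul, Pi.smul_apply, RingHom.id_apply]
    exact smul_comm _ _ _

theorem mulLin_apply {a : ℕ → ℝ} (h : Bd a) (f : lp E p) (n : ℕ) :
    (mulLin 𝕜 E p h f) n = (a n : 𝕜) • f n := rfl

variable [Fact (1 ≤ p)]

theorem norm_mulLin_le {a : ℕ → ℝ} (h : Bd a) {C : ℝ} (hC : ∀ n, |a n| ≤ C) (f : lp E p) :
    ‖mulLin 𝕜 E p h f‖ ≤ C * ‖f‖ := by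
  have hC0 : 0 ≤ C := (abs_nonneg _).trans (hC 0)
  have hp : p ≠ 0 := (zero_lt_one.trans_le (Fact.out : 1 ≤ p)).ne'
  have h1 : ‖mulLin 𝕜 E p h f‖ ≤ ‖(C : 𝕜) • f‖ := by
    refine lp.norm_mono hp fun n => ?_
    rw [mulLin_apply, norm_smul, lp.coeFn_smul, Pi.smul_apply, norm_smul, RCLike.norm_ofReal,
      RCLike.norm_ofReal]
    exact mul_le_mul_of_nonneg_right ((hC n).trans (le_abs_self C)) (norm_nonneg _)
  rwa [norm_smul, RCLike.norm_ofReal, abs_of_nonneg hC0] at h1

open Classical in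
variable (𝕜 E p) in
/-- The operator of multiplication by `a` (zero if `a` is unbounded). -/
noncomputable def mulOp (a : ℕ → ℝ) : lp E p →L[𝕜] lp E p :=
  if h : Bd a then (mulLin 𝕜 E p h).mkContinuous h.choose (norm_mulLin_le h h.choose_spec) else 0

theorem mulOp_apply {a : ℕ → ℝ} (h : Bd a) (f : lp E p) (n : ℕ) :
    (mulOp 𝕜 E p a f) n = (a n : 𝕜) • f n := by
  rw [mulOp, dif_pos h]
  rfl

theorem norm_mulOp_le {a : ℕ → ℝ} {C : ℝ} (hC : ∀ n, |a n| ≤ C) : ‖mulOp 𝕜 E p a‖ ≤ C := by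
  have h : Bd a := ⟨C, hC⟩
  refine ContinuousLinearMap.opNorm_le_bound _ ((abs_nonneg _).trans (hC 0)) fun f => ?_
  rw [mulOp, dif_pos h]
  exact norm_mulLin_le h hC f

theorem mulOp_add {a b : ℕ → ℝ} (ha : Bd a) (hb : Bd b) :
    mulOp 𝕜 E p (a + b) = mulOp 𝕜 E p a + mulOp 𝕜 E p b := by
  have hab : Bd (a + b) := by
    obtain ⟨C, hC⟩ := ha
    obtain ⟨D, hD⟩ := hb
    exact ⟨C + D, fun n => (abs_add_le _ _).trans (add_le_add (hC n) (hD n))⟩
  ext f n
  rw [add_apply, lp.coeFn_add, Pi.add_apply, mulOp_apply hab, mulOp_apply ha,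
    mulOp_apply hb]
  simp [add_smul]

theorem mulOp_mul {a b : ℕ → ℝ} (ha : Bd a) (hb : Bd b) :
    mulOp 𝕜 E p (fun n => a n * b n) = (mulOp 𝕜 E p b).comp (mulOp 𝕜 E p a) := by
  have hab : Bd fun n => a n * b n := by
    obtain ⟨C, hC⟩ := ha
    obtain ⟨D, hD⟩ := hb
    refine ⟨C * D, fun n => ?_⟩
    rw [abs_mul]
    exact mul_le_mul (hC n) (hD n) (abs_nonneg _) ((abs_nonneg _).trans (hC n))
  ext f n
  rw [ContinuousLinearMap.comp_apply, mulOp_apply hab, mulOp_apply hb, mulOp_apply ha, smul_smul]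
  congr 1
  push_cast
  ring

theorem mulOp_one : mulOp 𝕜 E p (fun _ => 1) = ContinuousLinearMap.id 𝕜 (lp E p) := by
  have h : Bd fun _ => (1 : ℝ) := ⟨1, fun n => by simp⟩
  ext f n
  rw [mulOp_apply h]
  simp

theorem mulOp_sub {a b : ℕ → ℝ} (ha : Bd a) (hb : Bd b) :
    mulOp 𝕜 E p a - mulOp 𝕜 E p b = mulOp 𝕜 E p fun n => a n - b n := by
  have hab : Bd fun n => a n - b n := by
    obtain ⟨C, hC⟩ := ha
    obtain ⟨D, hD⟩ := hb
    exact ⟨C + D, fun n => (abs_sub _ _).trans (add_le_add (hC n) (hD n))⟩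
  ext f n
  rw [sub_apply, lp.coeFn_sub, Pi.sub_apply, mulOp_apply hab, mulOp_apply ha,
    mulOp_apply hb]
  simp [sub_smul]

variable (𝕜 E p) in
/-- the `n`-th coordinate -/
noncomputable def ev (n : ℕ) : lp E p →L[𝕜] E n :=
  LinearMap.mkContinuous
    { toFun := fun f => f n
      map_add' := fun f g => by simp
      map_smul' := fun c f => by simp } 1 fun f => by
        rw [one_mul]
        exact lp.norm_apply_le_norm (zero_lt_one.trans_le (Fact.out : 1 ≤ p)).ne' f n

theorem compact_of_finite [∀ n, FiniteDimensional 𝕜 (E n)] {a : ℕ → ℝ} {N : ℕ}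
    (h : ∀ n, N ≤ n → a n = 0) : IsCompactOperator (mulOp 𝕜 E p a) := by
  have hb : Bd a := by
    refine ⟨(Finset.range N).sum fun n => |a n|, fun n => ?_⟩
    by_cases hn : n < N
    · exact Finset.single_le_sum (f := fun n => |a n|) (fun i _ => abs_nonneg _)
        (Finset.mem_range.2 hn)
    · rw [h n (by omega), abs_zero]
      exact Finset.sum_nonneg fun i _ => abs_nonneg _
  have h1 : mulOp 𝕜 E p a = ∑ n ∈ Finset.range N,
      (lp.singleContinuousLinearMap 𝕜 E p n).comp ((a n : 𝕜) • ev 𝕜 E p n) := by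
    ext f m
    rw [mulOp_apply hb, sum_apply, lp.coeFn_sum, Finset.sum_apply]
    simp only [ContinuousLinearMap.comp_apply, smul_apply,
      lp.singleContinuousLinearMap_apply]
    by_cases hm : m < N
    · rw [Finset.sum_eq_single m]
      · rw [lp.single_apply_self]
        rfl
      · intro n _ hn
        rw [lp.single_apply_ne _ _ _ (Ne.symm hn)]
      · intro hm'
        exact absurd (Finset.mem_range.2 hm) hm'
    · rw [h m (by omega)]
      simp only [RCLike.ofReal_zero, zero_smul]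
      symm
      refine Finset.sum_eq_zero fun n hn => ?_
      rw [Finset.mem_range] at hn
      rw [lp.single_apply_ne _ _ _ (by omega)]
  rw [h1]
  have h2 : ∀ s : Finset ℕ, IsCompactOperator (∑ n ∈ s,
      (lp.singleContinuousLinearMap 𝕜 E p n).comp ((a n : 𝕜) • ev 𝕜 E p n) :
        lp E p →L[𝕜] lp E p) := by
    classical
    intro s
    induction s using Finset.induction_on with
    | empty =>
      simp only [Finset.sum_empty]
      exact isCompactOperator_zero
    | insert n s hn ih =>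
      rw [Finset.sum_insert hn]
      refine IsCompactOperator.add ?_ ih
      have : ProperSpace (E n) := FiniteDimensional.proper_rclike 𝕜 (E n)
      have h3 : IsCompactOperator (lp.singleContinuousLinearMap 𝕜 E p n) :=
        isCompactOperator_of_locallyCompactSpace_rng _
      exact h3.comp_clm _
  exact h2 _

theorem compact_of_null [∀ n, FiniteDimensional 𝕜 (E n)] [∀ n, CompleteSpace (E n)] {a : ℕ → ℝ}
    (h : Tendsto a atTop (𝓝 0)) : IsCompactOperator (mulOp 𝕜 E p a) := by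
  have hb : Bd a := by
    obtain ⟨C, hC⟩ := (Metric.isBounded_range_of_tendsto a h).exists_norm_le
    exact ⟨C, fun n => by
      have := hC (a n) ⟨n, rfl⟩
      simpa using this⟩
  obtain ⟨C, hC⟩ := hb
  let b : ℕ → ℕ → ℝ := fun N n => if n < N then a n else 0
  have hbN : ∀ N n, |b N n| ≤ C := by
    intro N n
    simp only [b]
    split_ifs
    · exact hC n
    · rw [abs_zero]
      exact (abs_nonneg _).trans (hC 0)
  have h1 : Tendsto (fun N => mulOp 𝕜 E p (b N)) atTop (𝓝 (mulOp 𝕜 E p a)) := by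
    rw [tendsto_iff_norm_sub_tendsto_zero]
    rw [Metric.tendsto_atTop] at h ⊢
    intro ε hε
    obtain ⟨N₀, hN₀⟩ := h (ε / 2) (by positivity)
    refine ⟨N₀, fun N hN => ?_⟩
    rw [Real.dist_eq, sub_zero, abs_of_nonneg (norm_nonneg _), mulOp_sub ⟨C, hbN N⟩ ⟨C, hC⟩]
    refine lt_of_le_of_lt (norm_mulOp_le (C := ε / 2) fun n => ?_) (by linarith)
    simp only [b]
    split_ifs with hn
    · simp only [sub_self, abs_zero]
      positivity
    · have := hN₀ n (by omega)
      rw [Real.dist_eq, sub_zero] at this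
      rw [zero_sub, abs_neg]
      exact this.le
  exact isCompactOperator_of_tendsto h1 (Eventually.of_forall fun N =>
    compact_of_finite (N := N) fun n hn => by simp [b, not_lt.2 hn])

end Pool.Agent.Q302.TD.OP
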