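import Pool.Agent.TH774.TD.Slow

/-!
Slow functions attached to the members of a cone follow all Lipschitz reparametrizations of one slow
sequence.
-/

set_option autoImplicit false

namespace Pool.Agent.Q302.TD

open Filter Topology
open Pool.Agent.Helper227 Pool.Agent.H685R3 Pool.Agent.TH774.TD

theorem log_step (n : ℕ) : Real.log ((n : ℝ) + 1 + 1) - Real.log ((n : ℝ) + 1) ≤ 1 / ((n : ℝ) + 1) := by
  have h0 : (0 : ℝ) < (n : ℝ) + 1 := by positivity
  rw [← Real.log_div (by positivity) (by positivity)]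
  have h1 := Real.log_le_sub_one_of_pos (show (0 : ℝ) < ((n : ℝ) + 1 + 1) / ((n : ℝ) + 1) by positivity)
  refine h1.trans (le_of_eq ?_)
  field_simp
  ring

theorem tendsto_log_nat : Tendsto (fun n : ℕ => Real.log ((n : ℝ) + 1)) atTop atTop :=
  Real.tendsto_log_atTop.comp
    (tendsto_atTop_add_const_right _ _ tendsto_natCast_atTop_atTop)

/-- Lazy walks following the square of a Lipschitz function of the logarithm. -/
theorem exists_lazy {φ : ℝ → ℝ} (hm : Monotone φ) {K : ℝ} (hK : ∀ x y, x ≤ y → φ y - φ x ≤ K * (y - x))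
    (htop : Tendsto φ atTop atTop) : ∃ a : ℕ → ℕ, Lazy a ∧
      Tendsto (fun n : ℕ => √(a n : ℝ) - φ (Real.log ((n : ℝ) + 1))) atTop (𝓝 0) := by
  let p : ℕ → ℝ := fun n => max (φ (Real.log ((n : ℝ) + 1))) 0
  have hp0 : ∀ n, 0 ≤ p n := fun n => le_max_right _ _
  have hpm : Monotone p := by
    intro a b hab
    refine max_le_max (hm (Real.log_le_log (by positivity) ?_)) le_rfl
    have : (a : ℝ) ≤ b := by exact_mod_cast hab
    linarith
  have hpt : Tendsto p atTop atTop :=
    tendsto_atTop_mono (fun n => le_max_left _ _) (htop.comp tendsto_log_nat)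
  have hK0 : 0 ≤ K := by
    have h1 := hK 0 1 (by norm_num)
    have h2 := hm (show (0 : ℝ) ≤ 1 by norm_num)
    linarith
  have hstep : ∀ n : ℕ, p (n + 1) ≤ p n + K / ((n : ℝ) + 1) := by
    intro n
    have h1 : Real.log ((n : ℝ) + 1) ≤ Real.log ((n : ℝ) + 1 + 1) :=
      Real.log_le_log (by positivity) (by linarith)
    have h2 := hK _ _ h1
    have h3 := mul_le_mul_of_nonneg_left (log_step n) hK0
    have h4 : 0 ≤ K / ((n : ℝ) + 1) := by positivity
    have h5 : K * (1 / ((n : ℝ) + 1)) = K / ((n : ℝ) + 1) := by ring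
    refine max_le ?_ (by linarith [hp0 n])
    push_cast
    have h6 : φ (Real.log ((n : ℝ) + 1)) ≤ p n := le_max_left _ _
    linarith
  -- linear growth in the logarithm
  have hlin : ∀ n : ℕ, p n ≤ |φ 0| + K * Real.log ((n : ℝ) + 1) := by
    intro n
    have h1 : 0 ≤ Real.log ((n : ℝ) + 1) := Real.log_nonneg (by
      have : (0 : ℝ) ≤ n := Nat.cast_nonneg n
      linarith)
    have h2 := hK 0 _ h1
    have h3 := le_abs_self (φ 0)
    have h4 := abs_nonneg (φ 0)
    have h5 : 0 ≤ K * Real.log ((n : ℝ) + 1) := by positivity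
    refine max_le (by linarith) (by linarith)
  -- eventually small steps of the squares
  have hsmall : ∀ᶠ n : ℕ in atTop, p (n + 1) ^ 2 ≤ p n ^ 2 + 1 := by
    have h1 : Tendsto (fun n : ℕ => (2 * (|φ 0| + K * Real.log ((n : ℝ) + 1)) + K) *
        (K / ((n : ℝ) + 1))) atTop (𝓝 0) := by
      have h2 : Tendsto (fun x : ℝ => Real.log x / x) atTop (𝓝 0) := by
        have := Real.isLittleO_log_id_atTop.tendsto_div_nhds_zero
        simpa using this
      have h3 : Tendsto (fun n : ℕ => ((n : ℝ) + 1)) atTop atTop :=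
        tendsto_atTop_add_const_right _ _ tendsto_natCast_atTop_atTop
      have h4 := h2.comp h3
      have h5 : Tendsto (fun n : ℕ => ((n : ℝ) + 1)⁻¹) atTop (𝓝 0) := tendsto_inv_atTop_zero.comp h3
      have h6 := (h4.const_mul (2 * K * K)).add (h5.const_mul ((2 * |φ 0| + K) * K))
      simp only [mul_zero, add_zero, Function.comp] at h6
      refine h6.congr fun n => ?_
      have h7 : (0 : ℝ) < (n : ℝ) + 1 := by positivity
      field_simp
      ring
    filter_upwards [h1.eventually (gt_mem_nhds (show (0 : ℝ) < 1 by norm_num))] with n hn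
    have h2 := hstep n
    have h3 := hlin n
    have h4 := hp0 n
    have h5 := hp0 (n + 1)
    have h6 : 0 ≤ K / ((n : ℝ) + 1) := by positivity
    have h7 : K / ((n : ℝ) + 1) ≤ K := by
      rw [div_le_iff₀ (by positivity)]
      have : (0 : ℝ) ≤ n := Nat.cast_nonneg n
      nlinarith
    have h8 : p (n + 1) ^ 2 ≤ (p n + K / ((n : ℝ) + 1)) ^ 2 := pow_le_pow_left₀ h5 h2 2
    have h9 : (p n + K / ((n : ℝ) + 1)) ^ 2 =
        p n ^ 2 + (2 * p n + K / ((n : ℝ) + 1)) * (K / ((n : ℝ) + 1)) := by ring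
    have h10 : (2 * p n + K / ((n : ℝ) + 1)) * (K / ((n : ℝ) + 1)) ≤
        (2 * (|φ 0| + K * Real.log ((n : ℝ) + 1)) + K) * (K / ((n : ℝ) + 1)) :=
      mul_le_mul_of_nonneg_right (by linarith) h6
    linarith
  obtain ⟨n₀, hn₀⟩ := eventually_atTop.1 hsmall
  let C : ℝ := p n₀ ^ 2
  let a : ℕ → ℕ := fun n => ⌊max (p n ^ 2 - C) 0⌋₊
  have hsqm : ∀ {m n : ℕ}, m ≤ n → p m ^ 2 ≤ p n ^ 2 := fun h => pow_le_pow_left₀ (hp0 _) (hpm h) 2
  have hlow : ∀ n, p n ^ 2 - C - 1 ≤ a n := by
    intro n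
    have h1 : max (p n ^ 2 - C) 0 < a n + 1 := Nat.lt_floor_add_one _
    have h2 := le_max_left (p n ^ 2 - C) 0
    linarith
  have hC : 0 ≤ C := sq_nonneg _
  have hup : ∀ n, (a n : ℝ) ≤ p n ^ 2 := by
    intro n
    have h1 : (a n : ℝ) ≤ max (p n ^ 2 - C) 0 := Nat.floor_le (le_max_right _ _)
    refine h1.trans (max_le (by linarith) (sq_nonneg _))
  have hsq : Tendsto (fun n => p n ^ 2) atTop atTop := (tendsto_pow_atTop (by norm_num)).comp hpt
  have hat : Tendsto (fun n => (a n : ℝ)) atTop atTop := by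
    refine tendsto_atTop_mono hlow ?_
    have h1 := tendsto_atTop_add_const_right atTop (-C - 1) hsq
    refine h1.congr fun n => by ring
  refine ⟨a, ⟨?_, ?_, ?_, tendsto_natCast_atTop_iff.1 hat⟩, ?_⟩
  · change ⌊max (p 0 ^ 2 - C) 0⌋₊ = 0
    have h1 : p 0 ^ 2 ≤ C := hsqm (Nat.zero_le n₀)
    rw [max_eq_right (by linarith)]
    simp
  · intro m n hmn
    exact Nat.floor_le_floor (max_le_max (by linarith [hsqm hmn]) le_rfl)
  · intro n
    have h1 : max (p (n + 1) ^ 2 - C) 0 ≤ max (p n ^ 2 - C) 0 + 1 := by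
      have h2 := le_max_left (p n ^ 2 - C) 0
      have h3 := le_max_right (p n ^ 2 - C) 0
      refine max_le ?_ (by linarith)
      by_cases hn : n₀ ≤ n
      · have := hn₀ n hn
        linarith
      · have h4 : p (n + 1) ^ 2 ≤ C := hsqm (by omega)
        linarith
    calc a (n + 1) ≤ ⌊max (p n ^ 2 - C) 0 + 1⌋₊ := Nat.floor_le_floor h1
      _ = a n + 1 := Nat.floor_add_one (le_max_right _ _)
  · -- closeness
    have h1 : Tendsto (fun n => (C + 1) * (p n)⁻¹) atTop (𝓝 0) := by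
      have := (tendsto_inv_atTop_zero.comp hpt).const_mul (C + 1)
      simpa using this
    have h2 : ∀ᶠ n in atTop, p n = φ (Real.log ((n : ℝ) + 1)) := by
      filter_upwards [(htop.comp tendsto_log_nat).eventually_ge_atTop 0] with n hn
      exact max_eq_left hn
    refine squeeze_zero_norm' ?_ h1
    filter_upwards [hpt.eventually_ge_atTop 1, h2] with n h3 h4
    rw [← h4]
    have h5 := hlow n
    have h6 := hup n
    have h7 : √(a n : ℝ) ^ 2 = a n := Real.sq_sqrt (Nat.cast_nonneg _)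
    have h8 := Real.sqrt_nonneg (a n : ℝ)
    have h9 : √(a n : ℝ) ≤ p n := by
      rw [← Real.sqrt_sq (hp0 n)]
      exact Real.sqrt_le_sqrt h6
    rw [Real.norm_eq_abs, abs_of_nonpos (by linarith), ← div_eq_mul_inv, le_div_iff₀ (by linarith)]
    nlinarith

/-- Every cone contains reals whose slow functions follow any Lipschitz function of one slow
sequence. -/
theorem walk_lip (z : ℕ → Bool) : ∃ t : ℕ → ℝ, Tendsto t atTop atTop ∧
    ∀ φ : ℝ → ℝ, Monotone φ → (∃ K : ℝ, ∀ x y, x ≤ y → φ y - φ x ≤ K * (y - x)) →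
      Tendsto φ atTop atTop → ∃ y, TLe z y ∧ Tendsto (fun m => sq y m - φ (t m)) atTop (𝓝 0) := by
  obtain ⟨N, hN, hN'⟩ := walk z
  refine ⟨fun m => Real.log ((N m : ℝ) + 1), tendsto_log_nat.comp hN, fun φ hm ⟨K, hK⟩ ht => ?_⟩
  obtain ⟨a, ha, ha'⟩ := exists_lazy hm hK ht
  obtain ⟨y, hy, hy'⟩ := hN' a ha
  refine ⟨y, hy, ?_⟩
  have h1 := sqrt_close (tendsto_al y) hy'
  have h3 := h1.add (ha'.comp hN)
  rw [add_zero] at h3
  refine h3.congr fun m => ?_
  simp only [Pool.Agent.TH774.TD.sq, Function.comp]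
  ring

end Pool.Agent.Q302.TD
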