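import Pool.Agent.Q302.TD.Fat
import Pool.Agent.W885.TD.Cover

/-!
Turing determinacy and sparse sets: a degree invariant way to produce sets of natural numbers which
contain every sufficiently sparse set and are contained in almost every set.
-/

set_option autoImplicit false

namespace Pool.Agent.Q302.TD

open Filter Topology MeasureTheory
open Pool.Agent.Helper227 Pool.Agent.H685R3 Pool.Agent.W885.TD

/-- The combinatorial core. -/
theorem exists_fat (S : List ℕ → Finset ℕ) (w : ℕ → ℕ) (hw : ∀ s, (S s).card ≤ w s.length) :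
    ∃ F : List ℕ → ℕ → Finset ℕ, (∀ u, Esc (F u)) ∧ (∀ u, ∃ v, ∀ n, (F u n).card ≤ v) ∧
      ∀ r : ℕ → Bool, (∀ u, ∃ n, r ∈ Sup (F u n)) → ∃ τ : ℕ → ℕ, ∀ j,
        ∀ c ∈ S ((List.range (j + 2)).map τ), τ j < c → r c = true := by
  classical
  have h0 : ∀ u : List ℕ, ∃ (D : Finset ℕ) (φ : ℕ → ℕ), StrictMono φ ∧
      D.card ≤ w (u.length + 1) ∧ (∀ c ∈ D, u.getLastD 0 < c) ∧
      Esc (fun n => ((S (u ++ [φ n])).filter fun c => u.getLastD 0 < c) \ D) := by
    intro u
    obtain ⟨D, φ, h1, h2, h3, h4⟩ := exists_limit (w (u.length + 1))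
      (fun t => (S (u ++ [t])).filter fun c => u.getLastD 0 < c) (u.getLastD 0)
      (fun t => (Finset.card_filter_le _ _).trans (by
        have := hw (u ++ [t])
        simpa using this))
      (fun t c hc => (Finset.mem_filter.1 hc).2)
    exact ⟨D, φ, h1, h2, h3, h4⟩
  choose D φ hφ hD hDb hE using h0
  refine ⟨fun u n => (((S (u ++ [φ u n])).filter fun c => u.getLastD 0 < c) \ D u) ∪
    D (u ++ [φ u n]), fun u M => ?_, fun u => ⟨w (u.length + 1) + w (u.length + 2), fun n => ?_⟩,
    fun r hr => ?_⟩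
  · filter_upwards [hE u M, eventually_ge_atTop M] with n h1 h2 c hc
    rcases Finset.mem_union.1 hc with hc | hc
    · exact h1 c hc
    · have h3 := hDb _ c hc
      simp only [List.getLastD_concat] at h3
      have h4 := (hφ u).id_le n
      simp only [id] at h4
      omega
  · refine (Finset.card_union_le _ _).trans (add_le_add ?_ ?_)
    · refine (Finset.card_le_card Finset.sdiff_subset).trans ((Finset.card_filter_le _ _).trans ?_)
      have := hw (u ++ [φ u n])
      simpa using this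
    · have := hD (u ++ [φ u n])
      simpa using this
  · choose n hn using hr
    let L : ℕ → List ℕ := fun j => Nat.rec [] (fun _ u => u ++ [φ u (n u)]) j
    have hL : ∀ j, L (j + 1) = L j ++ [φ (L j) (n (L j))] := fun j => rfl
    let τ : ℕ → ℕ := fun j => φ (L j) (n (L j))
    have hLτ : ∀ j, L j = (List.range j).map τ := by
      intro j
      induction j with
      | zero => rfl
      | succ j ih =>
        rw [hL, List.range_succ, List.map_append, ← ih]
        rfl
    refine ⟨τ, fun j c hc hlt => ?_⟩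
    rw [← hLτ] at hc
    have h1 := hn (L j)
    have h2 := hn (L (j + 1))
    have hb : (L (j + 1)).getLastD 0 = τ j := by
      rw [hL]
      simp [τ]
    by_cases hcD : c ∈ D (L (j + 1))
    · exact h1 c (Finset.mem_union_right _ hcD)
    · refine h2 c (Finset.mem_union_left _ ?_)
      rw [Finset.mem_sdiff, Finset.mem_filter, hb]
      exact ⟨⟨hc, hlt⟩, hcD⟩

/-- The set of new values. -/
def NV (x : ℕ → Bool) : Set ℕ := {c | ∃ k, c ∈ gset x (nn (3 * k + 3)) ∧ clk x (nn (3 * k)) < c}

open Classical in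
/-- Its characteristic function. -/
noncomputable def nv (x : ℕ → Bool) (c : ℕ) : Bool := decide (c ∈ NV x)

theorem measurable_clk (N : ℕ) : Measurable fun x : ℕ → Bool => clk x N := by
  refine measurable_of_Iic fun M => ?_
  have h1 : (fun x : ℕ → Bool => clk x N) ⁻¹' Set.Iic M =
      (⋃ (L : List ℕ), ⋃ (j : ℕ), ⋃ (c : ℕ), ⋃ (_ : Encodable.encode L < N ∧ j ≤ N ∧ M < c),
        {x : ℕ → Bool | Lim (Fam L) x j [] c})ᶜ := by
    ext x
    simp only [Set.mem_preimage, Set.mem_Iic, Set.mem_compl_iff, Set.mem_iUnion, Set.mem_ofPred_eq,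
      not_exists]
    constructor
    · rintro h L j c ⟨h2, h3, h4⟩ h5
      have h6 := le_clk h2 h3 h5
      omega
    · rintro h
      refine clk_le fun L j c h2 h3 h4 => ?_
      by_contra h5
      exact h L j c ⟨h2, h3, by omega⟩ h4
  rw [h1]
  exact (MeasurableSet.iUnion fun L => MeasurableSet.iUnion fun j => MeasurableSet.iUnion fun c =>
    MeasurableSet.iUnion fun _ => measurableSet_lim _ _ _ _).compl

theorem measurable_nv : Measurable nv := by
  refine measurable_pi_lambda _ fun c => measurable_to_bool ?_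
  have h1 : (fun x : ℕ → Bool => nv x c) ⁻¹' {true} =
      ⋃ k, ((⋃ (L : List ℕ), ⋃ (j : ℕ), ⋃ (_ : Encodable.encode L < nn (3 * k + 3) ∧
        j ≤ nn (3 * k + 3)), {x : ℕ → Bool | Lim (Fam L) x j [] c}) ∩
        (fun x => clk x (nn (3 * k))) ⁻¹' Set.Iio c) := by
    ext x
    simp only [nv, NV, gset, Set.mem_preimage, Set.mem_singleton_iff, decide_eq_true_eq,
      Set.mem_ofPred_eq, Set.mem_iUnion, Set.mem_inter_iff, Set.mem_Iio, exists_prop, and_assoc]
  rw [h1]
  exact MeasurableSet.iUnion fun k => (MeasurableSet.iUnion fun L => MeasurableSet.iUnion fun j =>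
    MeasurableSet.iUnion fun _ => measurableSet_lim _ _ _ _).inter
      (measurable_clk _ measurableSet_Iio)

/-- The Turing saturation of the preimage of `V`. -/
def satN (V : Set (ℕ → Bool)) : Set (ℕ → Bool) := {x | ∃ x', TLe x' x ∧ TLe x x' ∧ nv x' ∈ V}

theorem satN_invariant (V : Set (ℕ → Bool)) : TuringInvariant (satN V) := by
  rintro x y h1 h2 ⟨x', h3, h4, h5⟩
  exact ⟨x', TLe.trans h3 h1, TLe.trans h2 h4, h5⟩

/-- All members of the degree of `yy z τ` have their new values in the set `r`. -/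
theorem nv_le {z : ℕ → Bool} {τ : ℕ → ℕ} {r : ℕ → Bool}
    (hr : ∀ j, ∀ c ∈ sl z ((List.range (j + 2)).map τ), τ j < c → r c = true)
    {y' : ℕ → Bool} (h1 : TLe (yy z τ) y') (h2 : TLe y' (yy z τ)) :
    ∀ᶠ c in atTop, nv y' c = true → r c = true := by
  obtain ⟨i, hi⟩ := clk_le_clk h1
  obtain ⟨j, hj⟩ := gset_le_gset h2
  -- the values below level `k₀` are finite in number
  let k₀ := i + j + 1
  let B := (Finset.range k₀).sup fun k => clk y' (nn (3 * k + 3))
  filter_upwards [eventually_gt_atTop B] with c hc hn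
  simp only [nv, decide_eq_true_eq] at hn
  obtain ⟨k, h3, h4⟩ := hn
  have hk : k₀ ≤ k := by
    by_contra hk
    have h5 : c ≤ clk y' (nn (3 * k + 3)) := le_csSup (finite_gset _ _).bddAbove h3
    have h6 : clk y' (nn (3 * k + 3)) ≤ B := Finset.le_sup (f := fun k => clk y' (nn (3 * k + 3)))
      (Finset.mem_range.2 (show k < k₀ by omega))
    omega
  have h5 := hj (3 * k + 3) (by omega) h3
  have h6 : τ k ≤ clk y' (nn (3 * k)) := by
    have h7 := hi (3 * k - 1) (by omega)
    have h8 : 3 * k - 1 + 1 = 3 * k := by omega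
    rw [h8] at h7
    exact (le_clk_yy z τ (by omega)).trans h7
  refine hr k c ?_ (by omega)
  unfold sl
  rw [Set.Finite.mem_toFinset]
  simp only [List.length_map, List.length_range]
  have h9 : ∀ i ≤ k + 1, τ i = pad ((List.range (k + 2)).map τ) i := by
    intro i hi
    have h10 : i < k + 2 := by omega
    simp [pad, List.getD, h10]
  have h10 : 3 * (k + 2 - 1) + 1 = 3 * k + 3 + 1 := by omega
  have h11 : 3 * (k + 1) + 1 = 3 * k + 3 + 1 := by omega
  rw [h10]
  exact gset_subset nn_strictMono (fun m hm => (tt_congr (k := k + 1) h9 m (by rw [h11]; exact hm)))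
    h5

/-- A sparse set is contained in the set of new values of some real in the cone. -/
theorem le_nv {z : ℕ → Bool} {τ : ℕ → ℕ} (hτ : StrictMono τ) (h : ∀ k, hb z (τ k) < τ (k + 1)) :
    ∃ k₀, ∀ k ≥ k₀, nv (yy z τ) (τ (k + 1)) = true := by
  obtain ⟨i, hi⟩ := clk_le_clk (TLe.refl (yy z τ))
  refine ⟨i, fun k hk => ?_⟩
  simp only [nv, decide_eq_true_eq]
  refine ⟨k, ?_, ?_⟩
  · have h3 := lim_root z (tt τ) nn_strictMono (2 * nn (3 * (k + 1) - 2) + 3)
    rw [tt_next τ (by omega)] at h3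
    refine ⟨[], _, ?_, ?_, h3⟩
    · have h4 : Encodable.encode ([] : List ℕ) = 0 := rfl
      rw [h4]
      have := nn_strictMono.id_le (3 * k + 3)
      simp only [id] at this
      omega
    · have h5 : 3 * (k + 1) - 2 = 3 * k + 1 := by omega
      rw [h5]
      have h6 := nn_succ (3 * k + 1)
      have h7 : nn (3 * k + 1 + 1) ≤ nn (3 * k + 3) := nn_strictMono.monotone (by omega)
      omega
  · have h3 := hi (3 * k) (by omega)
    have h4 := hh_le_hb z hτ k
    have h5 := h k
    unfold hh at h4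
    omega

theorem conull {V : Set (ℕ → Bool)}
    (hV : ∀ a b, a ∈ V → (∀ᶠ n in atTop, a n = true → b n = true) → b ∈ V) {z : ℕ → Bool}
    (hz : ∀ x, TLe z x → x ∈ satN V) : ∃ F : List ℕ → ℕ → Finset ℕ, (∀ u, Esc (F u)) ∧
      (∀ u, ∃ v, ∀ n, (F u n).card ≤ v) ∧ ∀ r : ℕ → Bool, (∀ u, ∃ n, r ∈ Sup (F u n)) → r ∈ V := by
  obtain ⟨F, h1, h2, h3⟩ := exists_fat (sl z) (fun n => ww (n - 1)) (card_sl z)
  refine ⟨F, h1, h2, fun r hr => ?_⟩
  obtain ⟨τ, hτ⟩ := h3 r hr
  obtain ⟨y', h4, h5, h6⟩ := hz _ (tLe_real z nn (tt τ))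
  exact hV _ _ h6 (nv_le hτ h5 h4)

theorem not_sparse {V : Set (ℕ → Bool)}
    (hV : ∀ a b, a ∈ V → (∀ᶠ n in atTop, a n = true → b n = true) → b ∈ V) {z : ℕ → Bool}
    (hz : ∀ x, TLe z x → x ∉ satN V) {a : ℕ → Bool}
    (ha : ∀ m n, a m = true → a n = true → m < n → hb z m < n) : a ∉ V := by
  intro haV
  by_cases hf : {n | a n = true}.Finite
  · refine hz z (TLe.refl z) ⟨z, TLe.refl z, TLe.refl z, hV _ _ haV ?_⟩
    obtain ⟨M, hM⟩ := hf.bddAbove
    filter_upwards [eventually_gt_atTop M] with n hn hn'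
    exact absurd (hM hn') (by omega)
  · have hinf : {n | a n = true}.Infinite := hf
    let τ : ℕ → ℕ := Nat.nth fun n => a n = true
    have hτ : StrictMono τ := Nat.nth_strictMono hinf
    have hτa : ∀ k, a (τ k) = true := fun k => Nat.nth_mem_of_infinite hinf k
    obtain ⟨k₀, hk₀⟩ := le_nv (z := z) hτ fun k => ha _ _ (hτa k) (hτa (k + 1))
      (hτ (Nat.lt_succ_self k))
    refine hz (yy z τ) (tLe_real _ _ _) ⟨yy z τ, TLe.refl _, TLe.refl _, hV _ _ haV ?_⟩
    filter_upwards [eventually_gt_atTop (τ (k₀ + 1))] with n hn hn'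
    obtain ⟨k, hk⟩ : ∃ k, τ k = n := by
      have : n ∈ Set.range τ := by
        change n ∈ Set.range (Nat.nth fun n => a n = true)
        rw [Nat.range_nth_of_infinite hinf]
        exact hn'
      exact this
    have h1 : k₀ + 1 < k := by
      by_contra hc
      have := hτ.monotone (show k ≤ k₀ + 1 by omega)
      omega
    obtain ⟨k', rfl⟩ : ∃ k', k = k' + 1 := ⟨k - 1, by omega⟩
    rw [← hk]
    exact hk₀ k' (by omega)

end Pool.Agent.Q302.TD
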